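import Pool.Agent.helper68.GB.Spec

/-!
# MP_baa4d7_al, project GBP: row CJR (transport of the data by conjugation)
-/

set_option autoImplicit false

namespace Pool.Agent.GB

open Pool.Agent.helper58.DC Pool.Agent.DI Pool.Agent.GR Pool.Agent.OB Pool.Agent.DR Pool.Agent.FI Pool.Agent.FI3 Pool.Agent.FI4 Pool.Agent.LE Pool.Agent.BR

theorem CJR_cent {G : Type} [Group G] (g x : G) : Subgroup.centralizer ({g * x * g⁻¹} : Set G) = OB.cj g (Subgroup.centralizer {x}) := by
  ext y
  rw [FI.mem_cj, Subgroup.mem_centralizer_singleton_iff, Subgroup.mem_centralizer_singleton_iff]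
  constructor
  · intro h
    calc g⁻¹ * y * g * x = g⁻¹ * (y * (g * x * g⁻¹)) * g := by group
      _ = g⁻¹ * ((g * x * g⁻¹) * y) * g := by rw [h]
      _ = x * (g⁻¹ * y * g) := by group
  · intro h
    calc y * (g * x * g⁻¹) = g * (g⁻¹ * y * g * x) * g⁻¹ := by group
      _ = g * (x * (g⁻¹ * y * g)) * g⁻¹ := by rw [h]
      _ = g * x * g⁻¹ * y := by group

theorem CJR_omega {G : Type} [Group G] (χ : G → ℂ) (g x : G) : omega χ (g * x * g⁻¹) = omega χ x := by
  have h : conjugatesOf (g * x * g⁻¹) = conjugatesOf x := by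
    refine (IsConj.conjugatesOf_eq ?_).symm
    rw [isConj_iff]
    exact ⟨g, rfl⟩
  unfold omega
  rw [h]

theorem CJR : CJR_stmt := by
  intro p M hS G _ _ D x θ χ h g
  obtain ⟨h1, h2, h3, h4⟩ := h
  refine ⟨h1, ?_, ?_, Induces_funMap hS h4 g⟩
  · refine ⟨?_, ?_, ?_, ?_, ?_, ?_⟩
    · have e : orderOf (g * x * g⁻¹) = orderOf x := by
        have := orderOf_injective (MulAut.conj g).toMonoidHom (MulAut.conj g).injective x
        simpa using this
      rw [e]
      exact h2.reg
    · rw [CJR_omega]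
      exact h2.ne
    · rw [CJR_cent]
      exact cj_mono (g := g) h2.le
    · exact cj_pgroup g h2.pgrp
    · rw [CJR_cent]
      have e1 : Nat.card (cjS g D) = Nat.card D := card_cj g D
      have e2 : Nat.card (OB.cj g (Subgroup.centralizer ({x} : Set G))) = Nat.card (Subgroup.centralizer ({x} : Set G)) := card_cj g _
      rw [e1, h2.card]
      unfold pp
      rw [e2]
    · intro y hy
      have e1 : Nat.card (cjS g D) = Nat.card D := card_cj g D
      rw [e1]
      exact h2.min y hy
  · have e : cz (cjS g D) = OB.cj g (cz D) := cj_cz g D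
    rw [e]
    exact IrrOn_funMap h3 g

end Pool.Agent.GB
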