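import Pool.Agent.helper70.GB.SpecK

/-!
# Project gb, module F2: the class of `V` is linear in powers of the first coordinate

`helper43`, problem MP_7933bc_al.
-/

open Matrix

namespace GB

universe u

section F2aux

variable {A : Type u} [CommRing A]

theorem F2_detV (a b c a' b' c' : A) (h : a * a' + b * b' + c * c' = 1) :
    (V ![a, b, c] ![a', b', c']).det = 1 := by
  have e : (V ![a, b, c] ![a', b', c']).det = (a * a' + b * b' + c * c') ^ 2 := by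
    unfold V
    simp [Matrix.det_succ_row_zero, Fin.sum_univ_succ, Fin.succAbove]
    ring
  rw [e, h, one_pow]

/-- row operation matrix -/
def F2_P (A : Type u) [CommRing A] : Matrix (Fin 4) (Fin 4) A :=
  !![1, 0, 0, 0; 0, 0, 0, -1; 0, 0, 1, 0; 0, -1, 0, 0]

/-- column operation matrix -/
def F2_Q (A : Type u) [CommRing A] : Matrix (Fin 4) (Fin 4) A :=
  !![0, 0, 0, 1; 1, 0, 0, 0; 0, 1, 0, 0; 0, 0, 1, 0]

theorem F2_detP : (F2_P A).det = -1 := by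
  unfold F2_P
  simp [Matrix.det_succ_row_zero, Fin.sum_univ_succ, Fin.succAbove]

theorem F2_detQ : (F2_Q A).det = -1 := by
  unfold F2_Q
  simp [Matrix.det_succ_row_zero, Fin.sum_univ_succ, Fin.succAbove]
  ring

theorem F2_PQ : F2_P A * F2_Q A ∈ E (Fin 4) A := by
  have h : F2_P A * F2_Q A =
      transvection 0 3 (1 : A) * transvection 3 0 (-1 : A) * transvection 0 3 (1 : A) *
        (transvection 1 2 (-1 : A) * transvection 2 1 (1 : A) * transvection 1 2 (-1 : A)) := by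
    unfold F2_P F2_Q
    ext i j
    fin_cases i <;> fin_cases j <;>
      simp [Matrix.mul_apply, Fin.sum_univ_succ, Matrix.transvection, Matrix.single, Matrix.one_apply]
  rw [h]
  refine (E _ A).mul_mem ((E _ A).mul_mem ((E _ A).mul_mem ?_ ?_) ?_)
    ((E _ A).mul_mem ((E _ A).mul_mem ?_ ?_) ?_) <;>
  exact transvection_mem_E (by decide) _

theorem F2_V (𝒦 : K1Data.{u} A) (a b c a' b' c' : A) (h : a * a' + b * b' + c * c' = 1) :
    𝒦.k (V ![a, b, c] ![a', b', c']) =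
      𝒦.k (Matrix.fromBlocks !![a, b; -b', a'] (c • (1 : Matrix (Fin 2) (Fin 2) A))
        (-(c' • (1 : Matrix (Fin 2) (Fin 2) A))) (!![a, b; -b', a']).adjugate) := by
  have h1 : Matrix.fromBlocks !![a, b; -b', a'] (c • (1 : Matrix (Fin 2) (Fin 2) A))
        (-(c' • (1 : Matrix (Fin 2) (Fin 2) A))) (!![a, b; -b', a']).adjugate =
      Matrix.reindex (finSumFinEquiv (m := 2) (n := 2)).symm finSumFinEquiv.symm
        (F2_P A * V ![a, b, c] ![a', b', c'] * F2_Q A) := by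
    rw [Matrix.adjugate_fin_two_of]
    unfold F2_P F2_Q V
    have e0 : finSumFinEquiv (m := 2) (n := 2) (Sum.inl 0) = (0 : Fin 4) := rfl
    have e1 : finSumFinEquiv (m := 2) (n := 2) (Sum.inl 1) = (1 : Fin 4) := rfl
    have e2 : finSumFinEquiv (m := 2) (n := 2) (Sum.inr 0) = (2 : Fin 4) := rfl
    have e3 : finSumFinEquiv (m := 2) (n := 2) (Sum.inr 1) = (3 : Fin 4) := rfl
    ext i j
    rcases i with i | i <;> rcases j with j | j <;> fin_cases i <;> fin_cases j <;>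
      simp [e0, e1, e2, e3, -finSumFinEquiv_apply_left, -finSumFinEquiv_apply_right]
  rw [h1, 𝒦.k_reindex]
  have hV : IsUnit (V ![a, b, c] ![a', b', c']).det := by rw [F2_detV _ _ _ _ _ _ h]; exact isUnit_one
  have hP : IsUnit (F2_P A).det := by rw [F2_detP]; exact isUnit_one.neg
  have hQ : IsUnit (F2_Q A).det := by rw [F2_detQ]; exact isUnit_one.neg
  have h2 := 𝒦.k_mul _ _ hP hQ
  rw [𝒦.k_E _ F2_PQ] at h2
  rw [𝒦.k_mul _ _ (by rw [Matrix.det_mul]; exact hP.mul hV) hQ, 𝒦.k_mul _ _ hP hV]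
  rw [add_right_comm, ← h2, zero_add]

/-- the properties of `φ_c` -/
structure F2_Phi (𝒦 : K1Data.{u} A) (c : A)
    (φ : ∀ {ι : Type} [Fintype ι] [DecidableEq ι], Matrix ι ι A → A → 𝒦.K) : Prop where
  p1 : ∀ (ι : Type) [Fintype ι] [DecidableEq ι] (β : Matrix ι ι A) (t : A), β.det + c * t = 1 →
      φ β t = 𝒦.k (Matrix.fromBlocks β (c • (1 : Matrix ι ι A)) (-(t • (1 : Matrix ι ι A)))
        β.adjugate)
  p2 : ∀ (ι : Type) [Fintype ι] [DecidableEq ι] (β γ : Matrix ι ι A) (t u : A),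
      β.det + c * t = 1 → γ.det + c * u = 1 → φ (β * γ) (u + t * γ.det) = φ β t + φ γ u
  p3 : ∀ (ι : Type) [Fintype ι] [DecidableEq ι] (β γ Y : Matrix ι ι A) (t u : A),
      β.det + c * t = 1 → γ.det + c * u = 1 → γ = β + c • Y → φ β t = φ γ u
  p4 : ∀ (ι : Type) [Fintype ι] [DecidableEq ι] (β : Matrix ι ι A) (t : A),
      β ∈ E ι A → β.det + c * t = 1 → φ β t = 0
  p5 : ∀ (ι κ : Type) [Fintype ι] [DecidableEq ι] [Fintype κ] [DecidableEq κ] (β : Matrix ι ι A)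
      (t : A), β.det + c * t = 1 → φ (dsum β (1 : Matrix κ κ A)) t = φ β t

variable {𝒦 : K1Data.{u} A} {c : A}
  {φ : ∀ {ι : Type} [Fintype ι] [DecidableEq ι], Matrix ι ι A → A → 𝒦.K}

theorem F2_elem (hφ : F2_Phi 𝒦 c φ) {ι : Type} [Fintype ι] [DecidableEq ι]
    {β γ Y E₁ E₂ : Matrix ι ι A} {t u : A} (hβ : β.det + c * t = 1) (hγ : γ.det + c * u = 1)
    (h1 : E₁ ∈ E ι A) (h2 : E₂ ∈ E ι A) (h : E₁ * β * E₂ = γ + c • Y) : φ β t = φ γ u := by
  have d1 := det_of_mem_E h1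
  have d2 := det_of_mem_E h2
  have e1 : E₁.det + c * 0 = 1 := by rw [d1]; ring
  have e2 : E₂.det + c * 0 = 1 := by rw [d2]; ring
  have a1 := hφ.p4 ι E₁ 0 h1 e1
  have a2 := hφ.p4 ι E₂ 0 h2 e2
  have a3 := hφ.p2 ι E₁ β 0 t e1 hβ
  rw [a1, zero_add, zero_mul, add_zero] at a3
  have e3 : (E₁ * β).det + c * t = 1 := by rw [Matrix.det_mul, d1, one_mul, hβ]
  have a4 := hφ.p2 ι (E₁ * β) E₂ t 0 e3 e2
  rw [a2, add_zero, d2, mul_one, zero_add, a3] at a4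
  have e4 : (E₁ * β * E₂).det + c * t = 1 := by rw [Matrix.det_mul, d2, mul_one, e3]
  rw [← a4]
  exact (hφ.p3 ι γ (E₁ * β * E₂) Y u t hγ e4 h).symm

theorem F2_reindex (hφ : F2_Phi 𝒦 c φ) {ι κ : Type} [Fintype ι] [DecidableEq ι] [Fintype κ]
    [DecidableEq κ] (e : ι ≃ κ) {β : Matrix ι ι A} {t : A} (hβ : β.det + c * t = 1) :
    φ (Matrix.reindex e e β) t = φ β t := by
  rw [hφ.p1 ι β t hβ, hφ.p1 κ _ t (by rw [Matrix.det_reindex_self]; exact hβ),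
    ← 𝒦.k_reindex (Equiv.sumCongr e e) (Matrix.fromBlocks _ _ _ _)]
  congr 1
  have h1 : ∀ i j, (1 : Matrix ι ι A) (e.symm i) (e.symm j) = (1 : Matrix κ κ A) i j := by
    intro i j
    simp [Matrix.one_apply]
  ext i j
  rcases i with i | i <;> rcases j with j | j <;>
    simp [h1, Matrix.adjugate_submatrix_equiv_self]

theorem F2_indep (hφ : F2_Phi 𝒦 c φ) {x b b₁ x₁ t₁ b₂ x₂ t₂ : A}
    (h1 : x * x₁ + b * b₁ + c * t₁ = 1) (h2 : x * x₂ + b * b₂ + c * t₂ = 1) :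
    φ !![x, b; -b₁, x₁] t₁ = φ !![x, b; -b₂, x₂] t₂ := by
  have hE : transvection 1 0 (x₂ * b₁ - b₂ * x₁) ∈ E (Fin 2) A :=
    transvection_mem_E (by decide) _
  refine F2_elem hφ (Y := !![0, 0; -(t₂ * b₁ - t₁ * b₂), -(t₁ * x₂ - t₂ * x₁)]) ?_ ?_ hE one_mem_E ?_
  · rw [Matrix.det_fin_two_of]; linear_combination h1
  · rw [Matrix.det_fin_two_of]; linear_combination h2
  · rw [Matrix.mul_one]
    ext i j
    fin_cases i <;> fin_cases j <;>
      simp [Matrix.mul_apply, Fin.sum_univ_succ, Matrix.transvection, Matrix.single, Matrix.one_apply]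
    · linear_combination (-b₂) * h1 + b₁ * h2
    · linear_combination x₂ * h1 - x₁ * h2

theorem F2_mul (hφ : F2_Phi 𝒦 c φ) {x y b b₁ x₁ t₁ b₂ y₂ t₂ : A}
    (h1 : x * x₁ + b * b₁ + c * t₁ = 1) (h2 : y * y₂ + b * b₂ + c * t₂ = 1) :
    φ !![x * y, b; -(b₂ + b₁ * y * y₂), x₁ * y₂] (t₂ + t₁ * (y * y₂)) =
      φ !![x, b; -b₁, x₁] t₁ + φ !![y, b; -b₂, y₂] t₂ := by
  have d1 : (!![x, b; -b₁, x₁] : Matrix (Fin 2) (Fin 2) A).det + c * t₁ = 1 := by
    rw [Matrix.det_fin_two_of]; linear_combination h1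
  have d2 : (!![y, b; -b₂, y₂] : Matrix (Fin 2) (Fin 2) A).det + c * t₂ = 1 := by
    rw [Matrix.det_fin_two_of]; linear_combination h2
  have d3 : (!![x * y, b; -(b₂ + b₁ * y * y₂), x₁ * y₂] : Matrix (Fin 2) (Fin 2) A).det +
      c * (t₂ + t₁ * (y * y₂)) = 1 := by
    rw [Matrix.det_fin_two_of]; linear_combination h2 + y * y₂ * h1
  have ds : ∀ β : Matrix (Fin 2) (Fin 2) A,
      (dsum β (1 : Matrix (Fin 1) (Fin 1) A)).det = β.det := by
    intro β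
    unfold dsum
    rw [Matrix.det_fromBlocks_zero₂₁, Matrix.det_one, mul_one]
  -- the first factor
  have g1 : (!![x, b, 0; -b₁, x₁, 0; 0, 0, 1] : Matrix (Fin 3) (Fin 3) A) =
      Matrix.reindex (finSumFinEquiv (m := 2) (n := 1)) finSumFinEquiv
        (dsum !![x, b; -b₁, x₁] (1 : Matrix (Fin 1) (Fin 1) A)) := by
    unfold dsum
    have e0 : (finSumFinEquiv (m := 2) (n := 1)).symm (0 : Fin 3) = Sum.inl 0 := rfl
    have e1 : (finSumFinEquiv (m := 2) (n := 1)).symm (1 : Fin 3) = Sum.inl 1 := rfl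
    have e2 : (finSumFinEquiv (m := 2) (n := 1)).symm (2 : Fin 3) = Sum.inr 0 := rfl
    ext i j
    fin_cases i <;> fin_cases j <;> simp [e0, e1, e2]
  have p1 : φ (!![x, b, 0; -b₁, x₁, 0; 0, 0, 1] : Matrix (Fin 3) (Fin 3) A) t₁ =
      φ !![x, b; -b₁, x₁] t₁ := by
    rw [g1, F2_reindex hφ _ (by rw [ds]; exact d1), hφ.p5 _ _ _ _ d1]
  -- the second factor
  have g2 : (!![y, 0, b; 0, 1, 0; -b₂, 0, y₂] : Matrix (Fin 3) (Fin 3) A) =
      Matrix.reindex ((finSumFinEquiv (m := 2) (n := 1)).trans (Equiv.swap 1 2))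
        ((finSumFinEquiv (m := 2) (n := 1)).trans (Equiv.swap 1 2))
        (dsum !![y, b; -b₂, y₂] (1 : Matrix (Fin 1) (Fin 1) A)) := by
    unfold dsum
    have e0 : (finSumFinEquiv (m := 2) (n := 1)).symm (0 : Fin 3) = Sum.inl 0 := rfl
    have e1 : (finSumFinEquiv (m := 2) (n := 1)).symm (1 : Fin 3) = Sum.inl 1 := rfl
    have e2 : (finSumFinEquiv (m := 2) (n := 1)).symm (2 : Fin 3) = Sum.inr 0 := rfl
    have e3 : (Equiv.swap (1 : Fin 3) 2) 0 = 0 := by decide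
    ext i j
    fin_cases i <;> fin_cases j <;> simp [e0, e1, e2, e3]
  have p2 : φ (!![y, 0, b; 0, 1, 0; -b₂, 0, y₂] : Matrix (Fin 3) (Fin 3) A) t₂ =
      φ !![y, b; -b₂, y₂] t₂ := by
    rw [g2, F2_reindex hφ _ (by rw [ds]; exact d2), hφ.p5 _ _ _ _ d2]
  -- the product
  have g3 : (!![x * y, b, 0; -(b₂ + b₁ * y * y₂), x₁ * y₂, 0; 0, 0, 1] : Matrix (Fin 3) (Fin 3) A) =
      Matrix.reindex (finSumFinEquiv (m := 2) (n := 1)) finSumFinEquiv
        (dsum !![x * y, b; -(b₂ + b₁ * y * y₂), x₁ * y₂] (1 : Matrix (Fin 1) (Fin 1) A)) := by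
    unfold dsum
    have e0 : (finSumFinEquiv (m := 2) (n := 1)).symm (0 : Fin 3) = Sum.inl 0 := rfl
    have e1 : (finSumFinEquiv (m := 2) (n := 1)).symm (1 : Fin 3) = Sum.inl 1 := rfl
    have e2 : (finSumFinEquiv (m := 2) (n := 1)).symm (2 : Fin 3) = Sum.inr 0 := rfl
    ext i j
    fin_cases i <;> fin_cases j <;> simp [e0, e1, e2]
  have p3 : φ (!![x * y, b, 0; -(b₂ + b₁ * y * y₂), x₁ * y₂, 0; 0, 0, 1] :
      Matrix (Fin 3) (Fin 3) A) (t₂ + t₁ * (y * y₂)) =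
      φ !![x * y, b; -(b₂ + b₁ * y * y₂), x₁ * y₂] (t₂ + t₁ * (y * y₂)) := by
    rw [g3, F2_reindex hφ _ (by rw [ds]; exact d3), hφ.p5 _ _ _ _ d3]
  have D1 : (!![x, b, 0; -b₁, x₁, 0; 0, 0, 1] : Matrix (Fin 3) (Fin 3) A).det + c * t₁ = 1 := by
    rw [g1, Matrix.det_reindex_self, ds]; exact d1
  have D2 : (!![y, 0, b; 0, 1, 0; -b₂, 0, y₂] : Matrix (Fin 3) (Fin 3) A).det + c * t₂ = 1 := by
    rw [g2, Matrix.det_reindex_self, ds]; exact d2
  have D3 : (!![x * y, b, 0; -(b₂ + b₁ * y * y₂), x₁ * y₂, 0; 0, 0, 1] :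
      Matrix (Fin 3) (Fin 3) A).det + c * (t₂ + t₁ * (y * y₂)) = 1 := by
    rw [g3, Matrix.det_reindex_self, ds]; exact d3
  have m1 := hφ.p2 _ _ _ _ _ D1 D2
  rw [← p3, ← p1, ← p2, ← m1]
  have D4 : (!![x, b, 0; -b₁, x₁, 0; 0, 0, 1] * !![y, 0, b; 0, 1, 0; -b₂, 0, y₂] :
      Matrix (Fin 3) (Fin 3) A).det + c * (t₂ + t₁ *
      (!![y, 0, b; 0, 1, 0; -b₂, 0, y₂] : Matrix (Fin 3) (Fin 3) A).det) = 1 := by
    rw [Matrix.det_mul]
    linear_combination D2 + (!![y, 0, b; 0, 1, 0; -b₂, 0, y₂] : Matrix (Fin 3) (Fin 3) A).det * D1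
  symm
  refine F2_elem hφ (E₁ := transvection 1 2 (1 : A) * transvection 2 1 (-1 : A) *
      transvection 1 2 (1 : A) * transvection 2 1 y₂)
    (E₂ := transvection 1 2 (-x) * transvection 2 0 (-b₁ * y) * transvection 2 1 x₁)
    (Y := !![0, 0, 0; -t₁ * b₁ * y * y₂, t₁ * x₁ * y₂, t₁ * y₂; t₁ * b₁ * y, -t₁ * x₁, -t₁])
    D4 D3 ?_ ?_ ?_
  · refine (E _ A).mul_mem ((E _ A).mul_mem ((E _ A).mul_mem ?_ ?_) ?_) ?_ <;>
    exact transvection_mem_E (by decide) _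
  · refine (E _ A).mul_mem ((E _ A).mul_mem ?_ ?_) ?_ <;>
    exact transvection_mem_E (by decide) _
  · ext i j
    fin_cases i <;> fin_cases j <;>
      simp [Matrix.mul_apply, Fin.sum_univ_succ, Matrix.transvection, Matrix.single, Matrix.one_apply]
    · ring
    · ring
    · ring
    · linear_combination y₂ * b₁ * y * h1
    · linear_combination (-(y₂ * x₁)) * h1
    · linear_combination (-y₂) * h1
    · linear_combination (-(b₁ * y)) * h1
    · linear_combination x₁ * h1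
    · linear_combination h1

theorem F2_pow (hφ : F2_Phi 𝒦 c φ) {a b b₁ a₁ t₁ : A}
    (h1 : a * a₁ + b * b₁ + c * t₁ = 1) (M : ℕ) (hM : 1 ≤ M) :
    ∃ b₂ a₂ t₂ : A, a ^ M * a₂ + b * b₂ + c * t₂ = 1 ∧
      φ !![a ^ M, b; -b₂, a₂] t₂ = M • φ !![a, b; -b₁, a₁] t₁ := by
  induction M, hM using Nat.le_induction with
  | base => exact ⟨b₁, a₁, t₁, by rw [pow_one]; exact h1, by rw [pow_one, one_smul]⟩
  | succ M hM ih =>
    obtain ⟨b₂, a₂, t₂, h2, h3⟩ := ih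
    refine ⟨b₁ + b₂ * a * a₁, a₂ * a₁, t₁ + t₂ * (a * a₁), ?_, ?_⟩
    · linear_combination h1 + a * a₁ * h2
    · rw [pow_succ, F2_mul hφ h2 h1, h3, succ_nsmul]

end F2aux

theorem F2 (hPH : PH_stmt.{u}) : F2_stmt.{u} := by
  intro A _ 𝒦 a b c w' x' M hM hw hx
  obtain ⟨φ, q1, q2, q3, q4, q5⟩ := hPH A 𝒦 c
  have hφ : F2_Phi 𝒦 c φ := ⟨q1, q2, q3, q4, q5⟩
  have hw' : w' = ![w' 0, w' 1, w' 2] := by
    ext i; fin_cases i <;> rfl
  have hx' : x' = ![x' 0, x' 1, x' 2] := by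
    ext i; fin_cases i <;> rfl
  have h1 : a * w' 0 + b * w' 1 + c * w' 2 = 1 := by
    rw [← hw]; simp [dotProduct, Fin.sum_univ_succ]; ring
  have h2 : a ^ M * x' 0 + b * x' 1 + c * x' 2 = 1 := by
    rw [← hx]; simp [dotProduct, Fin.sum_univ_succ]; ring
  obtain ⟨b₂, a₂, t₂, h3, h4⟩ := F2_pow hφ h1 M hM
  have d1 : (!![a, b; -w' 1, w' 0] : Matrix (Fin 2) (Fin 2) A).det + c * w' 2 = 1 := by
    rw [Matrix.det_fin_two_of]; linear_combination h1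
  have d2 : (!![a ^ M, b; -x' 1, x' 0] : Matrix (Fin 2) (Fin 2) A).det + c * x' 2 = 1 := by
    rw [Matrix.det_fin_two_of]; linear_combination h2
  rw [hw', hx', F2_V 𝒦 _ _ _ _ _ _ h1, F2_V 𝒦 _ _ _ _ _ _ h2, ← hφ.p1 _ _ _ d1, ← hφ.p1 _ _ _ d2,
    ← h4]
  exact F2_indep hφ h2 h3

end GB
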